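import Pool.Agent.WIR.StmtsE

/-!
# WIR, row FLO
-/

namespace Pool.Agent.WIR.H31

open scoped BigOperators

theorem flo_one (n l : ℕ) : n + ⌊(l : ℝ) * Real.logb 2 (3 / 2)⌋₊ + l = Mz n l := by
  have h0 : (0 : ℝ) ≤ (l : ℝ) * Real.logb 2 (3 / 2) :=
    mul_nonneg (Nat.cast_nonneg l) (Real.logb_nonneg (by norm_num) (by norm_num))
  have h1 : (l : ℝ) * Real.logb 2 (3 / 2) + (l : ℝ) = Real.logb (2 : ℕ) ((3 ^ l : ℕ) : ℝ) := by
    have e : Real.logb 2 (3 / 2) = Real.logb 2 3 - 1 := by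
      rw [Real.logb_div (by norm_num) (by norm_num), Real.logb_self_eq_one (by norm_num)]
    push_cast
    rw [Real.logb_pow, e]
    ring
  have h2 : ⌊(l : ℝ) * Real.logb 2 (3 / 2) + (l : ℝ)⌋₊ =
      ⌊(l : ℝ) * Real.logb 2 (3 / 2)⌋₊ + l := Nat.floor_add_natCast h0 l
  rw [h1, Real.natFloor_logb_natCast] at h2
  · unfold Mz
    omega

theorem flo_two (n l : ℕ) : 2 ^ Mz n l ≤ 2 ^ n * 3 ^ l ∧ 2 ^ n * 3 ^ l < 2 ^ (Mz n l + 1) := by
  unfold Mz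
  constructor
  · rw [pow_add]
    exact Nat.mul_le_mul_left _ (Nat.pow_log_le_self 2 (by positivity))
  · rw [add_assoc, pow_add]
    exact Nat.mul_lt_mul_of_pos_left (Nat.lt_pow_succ_log_self (by norm_num) _) (by positivity)

theorem flo_log_lower (l : ℕ) : 79 * l < 50 * (Nat.log 2 (3 ^ l) + 1) := by
  have h : 3 ^ l < 2 ^ (Nat.log 2 (3 ^ l) + 1) := Nat.lt_pow_succ_log_self (by norm_num) _
  have h2 : 2 ^ (79 * l) < 2 ^ (50 * (Nat.log 2 (3 ^ l) + 1)) := by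
    calc 2 ^ (79 * l) = (2 ^ 79) ^ l := by rw [pow_mul]
      _ ≤ (3 ^ 50) ^ l := Nat.pow_le_pow_left (by norm_num) l
      _ = (3 ^ l) ^ 50 := by rw [← pow_mul, ← pow_mul, mul_comm]
      _ < (2 ^ (Nat.log 2 (3 ^ l) + 1)) ^ 50 := Nat.pow_lt_pow_left h (by norm_num)
      _ = _ := by rw [← pow_mul, mul_comm]
  exact (Nat.pow_lt_pow_iff_right (by norm_num)).1 h2

theorem flo_log_upper (l : ℕ) : 5 * Nat.log 2 (3 ^ l) ≤ 8 * l := by
  have h : 2 ^ Nat.log 2 (3 ^ l) ≤ 3 ^ l := Nat.pow_log_le_self 2 (by positivity)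
  have h2 : 2 ^ (5 * Nat.log 2 (3 ^ l)) ≤ 2 ^ (8 * l) := by
    calc 2 ^ (5 * Nat.log 2 (3 ^ l)) = (2 ^ Nat.log 2 (3 ^ l)) ^ 5 := by
          rw [← pow_mul, mul_comm]
      _ ≤ (3 ^ l) ^ 5 := Nat.pow_le_pow_left h 5
      _ = (3 ^ 5) ^ l := by rw [← pow_mul, ← pow_mul, mul_comm]
      _ ≤ (2 ^ 8) ^ l := Nat.pow_le_pow_left (by norm_num) l
      _ = _ := by rw [← pow_mul]
  exact (Nat.pow_le_pow_iff_right (by norm_num)).1 h2

/-- Row FLO. -/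
theorem flo : FloStmt := by
  refine ⟨flo_one, flo_two, fun n l hn hl => ?_, fun n l => ?_⟩
  · have h := flo_log_lower l
    unfold Mz
    omega
  · have h := flo_log_upper l
    unfold Mz
    omega

end Pool.Agent.WIR.H31
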