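import Pool.Agent.WIR.StmtsB

/-!
# WIR, row GST
-/

namespace Pool.Agent.WIR.H31

open scoped BigOperators

/-- **Row GST** -/
theorem gst : GstStmt := by
  intro B f l hf
  unfold Gh
  by_cases h : l + 1 ≤ B
  · have hs : Finset.Icc (l + 1) B = insert (l + 1) (Finset.Icc (l + 1 + 1) B) := by
      ext x
      simp only [Finset.mem_Icc, Finset.mem_insert]
      omega
    rw [hs, Finset.sum_insert (by simp)]
    have h1 : (1 / 2 : ℝ) ^ (l + 1 - l) * f (l + 1) = f (l + 1) / 2 := by
      rw [Nat.add_sub_cancel_left]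
      ring
    have h2 : ∑ x ∈ Finset.Icc (l + 1 + 1) B, (1 / 2 : ℝ) ^ (x - l) * f x =
        (∑ x ∈ Finset.Icc (l + 1 + 1) B, (1 / 2 : ℝ) ^ (x - (l + 1)) * f x) / 2 := by
      rw [Finset.sum_div]
      refine Finset.sum_congr rfl (fun x hx => ?_)
      have hx' := (Finset.mem_Icc.1 hx).1
      have e : x - l = x - (l + 1) + 1 := by omega
      rw [e, pow_succ]
      ring
    rw [h1, h2]
    ring
  · have e1 : Finset.Icc (l + 1) B = ∅ := Finset.Icc_eq_empty h
    have e2 : Finset.Icc (l + 1 + 1) B = ∅ := Finset.Icc_eq_empty (by omega)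
    rw [e1, e2, hf (l + 1) (by omega)]
    simp

end Pool.Agent.WIR.H31
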