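import Pool.Agent.WIR.StmtsB

/-!
# WIR, row HOE
-/

namespace Pool.Agent.WIR.H31

open scoped BigOperators

theorem hoe_aux (s : ℕ) (θ : ℝ) :
    ∑ r ∈ Finset.range (s + 1), (s.choose r : ℝ) * Real.exp (θ * (2 * (r : ℝ) - s)) ≤
      2 ^ s * Real.exp (θ ^ 2 * s / 2) := by
  have h1 : ∑ r ∈ Finset.range (s + 1), (s.choose r : ℝ) * Real.exp (θ * (2 * (r : ℝ) - s)) =
      (Real.exp θ + Real.exp (-θ)) ^ s := by
    rw [add_pow]
    refine Finset.sum_congr rfl (fun r hr => ?_)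
    have hr' : r ≤ s := by
      have := Finset.mem_range.1 hr
      omega
    rw [← Real.exp_nat_mul, ← Real.exp_nat_mul, ← Real.exp_add, mul_comm]
    congr 2
    rw [Nat.cast_sub hr']
    ring
  rw [h1]
  have h2 : Real.exp θ + Real.exp (-θ) = 2 * Real.cosh θ := by
    rw [Real.cosh_eq]
    ring
  rw [h2, mul_pow]
  have h3 : Real.cosh θ ^ s ≤ Real.exp (θ ^ 2 * s / 2) := by
    have h4 : Real.cosh θ ^ s ≤ (Real.exp (θ ^ 2 / 2)) ^ s :=
      pow_le_pow_left₀ (Real.cosh_pos θ).le (Real.cosh_le_exp_half_sq θ) s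
    refine h4.trans (le_of_eq ?_)
    rw [← Real.exp_nat_mul]
    congr 1
    ring
  exact mul_le_mul_of_nonneg_left h3 (by positivity)

theorem hoe_gen (s : ℕ) (u θ : ℝ) (F : Finset ℕ) (hF : F ⊆ Finset.range (s + 1))
    (hθ : ∀ r ∈ F, (u ^ 2 / s : ℝ) ≤ θ * (2 * (r : ℝ) - s)) (hs : 0 < s)
    (hu : θ ^ 2 = u ^ 2 / s ^ 2) :
    ∑ r ∈ F, (s.choose r : ℝ) ≤ 2 ^ s * Real.exp (-(u ^ 2 / (2 * s))) := by
  have hs' : (0 : ℝ) < s := by exact_mod_cast hs
  have h1 : ∑ r ∈ F, (s.choose r : ℝ) ≤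
      ∑ r ∈ F, (s.choose r : ℝ) * Real.exp (θ * (2 * (r : ℝ) - s)) *
        Real.exp (-(u ^ 2 / s : ℝ)) := by
    refine Finset.sum_le_sum (fun r hr => ?_)
    rw [mul_assoc, ← Real.exp_add]
    have h2 : (1 : ℝ) ≤ Real.exp (θ * (2 * (r : ℝ) - s) + -(u ^ 2 / s : ℝ)) := by
      rw [← Real.exp_zero]
      exact Real.exp_le_exp.2 (by have := hθ r hr; linarith)
    have h3 : (0 : ℝ) ≤ (s.choose r : ℝ) := Nat.cast_nonneg _
    nlinarith
  rw [← Finset.sum_mul] at h1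
  have h4 : ∑ r ∈ F, (s.choose r : ℝ) * Real.exp (θ * (2 * (r : ℝ) - s)) ≤
      ∑ r ∈ Finset.range (s + 1), (s.choose r : ℝ) * Real.exp (θ * (2 * (r : ℝ) - s)) :=
    Finset.sum_le_sum_of_subset_of_nonneg hF (fun _ _ _ => by positivity)
  have h5 := h4.trans (hoe_aux s θ)
  have h6 : (∑ r ∈ F, (s.choose r : ℝ) * Real.exp (θ * (2 * (r : ℝ) - s))) *
      Real.exp (-(u ^ 2 / s : ℝ)) ≤ 2 ^ s * Real.exp (θ ^ 2 * s / 2) * Real.exp (-(u ^ 2 / s : ℝ)) :=
    mul_le_mul_of_nonneg_right h5 (Real.exp_pos _).le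
  refine (h1.trans h6).trans (le_of_eq ?_)
  rw [mul_assoc, ← Real.exp_add]
  congr 2
  rw [hu]
  field_simp
  ring

/-- **Row HOE** -/
theorem hoe : HoeStmt := by
  intro s u hs hu
  have hs' : (0 : ℝ) < s := by exact_mod_cast hs
  constructor
  · refine hoe_gen s u (u / s) _ (Finset.filter_subset _ _) (fun r hr => ?_) hs (by rw [div_pow])
    have h := (Finset.mem_filter.1 hr).2
    have h2 : u / s * u ≤ u / s * (2 * (r : ℝ) - s) :=
      mul_le_mul_of_nonneg_left h (by positivity)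
    calc (u ^ 2 / s : ℝ) = u / s * u := by ring
      _ ≤ _ := h2
  · refine hoe_gen s u (-(u / s)) _ (Finset.filter_subset _ _) (fun r hr => ?_) hs
      (by rw [neg_sq, div_pow])
    have h := (Finset.mem_filter.1 hr).2
    have h2 : u / s * u ≤ u / s * ((s : ℝ) - 2 * r) :=
      mul_le_mul_of_nonneg_left h (by positivity)
    calc (u ^ 2 / s : ℝ) = u / s * u := by ring
      _ ≤ _ := h2
      _ = _ := by ring

end Pool.Agent.WIR.H31
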